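import Pool.Agent.Helper84.SV.Defs

/-!
CX (MP_f22a19_gt): fundamental cycles, simplicial volume, and the reduction of the final statement
to a lower bound for one generator of the top integral homology.
-/

set_option autoImplicit false

open Set Finset

namespace Pool.Agent.Helper43.CX

open Pool.SV

/-- singular `q`-chains with coefficients in `R` -/
abbrev ChainC (R : Type*) [CommRing R] (M : Type*) [TopologicalSpace M] (q : ℕ) := Sing M q →₀ R

/-- the boundary map with coefficients in `R` -/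
noncomputable def bdC (R : Type*) [CommRing R] (M : Type*) [TopologicalSpace M] (q : ℕ) :
    ChainC R M (q + 1) →ₗ[R] ChainC R M q :=
  Finsupp.linearCombination R (fun σ : Sing M (q + 1) =>
    ∑ i : Fin (q + 2), ((-1 : R) ^ (i : ℕ)) • Finsupp.single (σ.comp (face q i)) (1 : R))

theorem bdC_real (M : Type*) [TopologicalSpace M] (q : ℕ) : bdC ℝ M q = bd M q := rfl

/-- an integral chain as a real chain -/
noncomputable def toReal {M : Type*} [TopologicalSpace M] {q : ℕ} (z : ChainC ℤ M q) : Chain M q :=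
  z.mapRange (fun m : ℤ => (m : ℝ)) Int.cast_zero

/-- `z` is an integral cycle of degree `n + 1` and its class generates the integral homology
`H_(n+1)(M; ℤ)`, which is infinite cyclic -/
def IsFund {M : Type*} [TopologicalSpace M] {n : ℕ} (z : ChainC ℤ M (n + 1)) : Prop :=
  bdC ℤ M n z = 0 ∧ ∀ w : ChainC ℤ M (n + 1), bdC ℤ M n w = 0 →
    ∃! m : ℤ, ∃ b : ChainC ℤ M (n + 2), w - m • z = bdC ℤ M (n + 1) b

/-- the infimum of the `ℓ¹`-norms of the real cycles homologous to `z` -/
noncomputable def simplicialVolume {M : Type*} [TopologicalSpace M] {n : ℕ} (z : ChainC ℤ M (n + 1)) : ℝ :=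
  sInf {r : ℝ | ∃ y : Chain M (n + 1), bd M n y = 0 ∧
    (∃ b : Chain M (n + 2), y - toReal z = bd M (n + 1) b) ∧ r = nrm y}

variable {M : Type*} [TopologicalSpace M] {n : ℕ}

theorem nrm_nonneg {q : ℕ} (c : Chain M q) : 0 ≤ nrm c := by
  unfold nrm Finsupp.sum
  exact Finset.sum_nonneg fun i _ => abs_nonneg _

theorem nrm_neg {q : ℕ} (c : Chain M q) : nrm (-c) = nrm c := by
  unfold nrm Finsupp.sum
  rw [Finsupp.support_neg]
  exact Finset.sum_congr rfl fun i _ => by simp only [Finsupp.neg_apply, abs_neg]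

theorem toReal_add {q : ℕ} (a b : ChainC ℤ M q) : toReal (a + b) = toReal a + toReal b := by
  unfold toReal
  rw [Finsupp.mapRange_add]
  intro x y
  push_cast
  rfl

theorem toReal_neg {q : ℕ} (a : ChainC ℤ M q) : toReal (-a) = -toReal a := by
  ext σ
  simp [toReal]

theorem toReal_zsmul {q : ℕ} (m : ℤ) (a : ChainC ℤ M q) : toReal (m • a) = m • toReal a := by
  ext σ
  simp [toReal]

theorem toReal_single {q : ℕ} (σ : Sing M q) (m : ℤ) :
    toReal (Finsupp.single σ m) = Finsupp.single σ (m : ℝ) := by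
  unfold toReal
  exact Finsupp.mapRange_single

/-- passing to real coefficients commutes with the boundary -/
theorem toReal_bd {q : ℕ} (z : ChainC ℤ M (q + 1)) : toReal (bdC ℤ M q z) = bd M q (toReal z) := by
  induction z using Finsupp.induction_linear with
  | zero => simp [toReal]
  | add a b ha hb => rw [map_add, toReal_add, ha, hb, toReal_add, map_add]
  | single σ m =>
    rw [toReal_single]
    unfold bdC bd
    rw [Finsupp.linearCombination_single, Finsupp.linearCombination_single]
    ext τ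
    simp only [toReal, Finsupp.mapRange_apply, Finsupp.smul_apply, Finsupp.coe_finsetSum, Finset.sum_apply,
      smul_eq_mul, Int.cast_mul, Int.cast_sum]
    congr 1
    refine Finset.sum_congr rfl fun i _ => ?_
    by_cases h : σ.comp (face q i) = τ
    · subst h
      simp
    · simp [h]

/-- If the top integral homology is infinite cyclic generated by `z₀` and every real cycle homologous to
`z₀` has norm at least `c > 0`, then the simplicial volume is positive for every fundamental cycle. -/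
theorem pos_of_bound (z₀ : ChainC ℤ M (n + 1)) (h0 : bdC ℤ M n z₀ = 0)
    (hgen : ∀ w : ChainC ℤ M (n + 1), bdC ℤ M n w = 0 →
      ∃ (m : ℤ) (b : ChainC ℤ M (n + 2)), w = m • z₀ + bdC ℤ M (n + 1) b)
    (hfree : ∀ (m : ℤ) (b : ChainC ℤ M (n + 2)), m • z₀ = bdC ℤ M (n + 1) b → m = 0)
    (c : ℝ) (hc : 0 < c) (hbound : ∀ y : Chain M (n + 1), ∀ b : Chain M (n + 2),
      y - toReal z₀ = bd M (n + 1) b → c ≤ nrm y) :
    IsFund z₀ ∧ ∀ z : ChainC ℤ M (n + 1), IsFund z → 0 < simplicialVolume z := by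
  have hF : IsFund z₀ := by
    refine ⟨h0, fun w hw => ?_⟩
    obtain ⟨m, b, hb⟩ := hgen w hw
    refine ⟨m, ⟨b, by rw [hb]; abel⟩, ?_⟩
    rintro m' ⟨b', hb'⟩
    have h1 : (m - m') • z₀ = bdC ℤ M (n + 1) (b' - b) := by
      rw [map_sub, ← hb', hb, sub_smul]
      abel
    have h2 := hfree _ _ h1
    linarith [sub_eq_zero.1 h2]
  refine ⟨hF, fun z hz => ?_⟩
  obtain ⟨m, b, hb⟩ := hgen z hz.1
  obtain ⟨m', ⟨b', hb'⟩, -⟩ := hz.2 z₀ h0
  -- `m * m' = 1`
  have h1 : (1 - m * m') • z₀ = bdC ℤ M (n + 1) (b' + m' • b) := by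
    rw [map_add, map_smul, ← hb', hb, sub_smul, one_smul, smul_add, smul_smul, mul_comm m m']
    abel
  have h2 : m * m' = 1 := by
    have := hfree _ _ h1
    linarith
  have h3 : m = 1 ∨ m = -1 := Int.isUnit_iff.1 (IsUnit.of_mul_eq_one m' h2)
  have hle : ∀ y : Chain M (n + 1), ∀ b₁ : Chain M (n + 2),
      y - toReal z = bd M (n + 1) b₁ → c ≤ nrm y := by
    intro y b₁ hy
    rcases h3 with h3 | h3
    · refine hbound y (b₁ + toReal b) ?_
      rw [map_add, ← hy, ← toReal_bd, hb, h3, one_smul, toReal_add]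
      abel
    · rw [← nrm_neg]
      refine hbound (-y) (-(b₁ + toReal b)) ?_
      rw [map_neg, map_add, ← hy, ← toReal_bd, hb, h3, neg_smul, one_smul, toReal_add, toReal_neg]
      abel
  have hne : {r : ℝ | ∃ y : Chain M (n + 1), bd M n y = 0 ∧
      (∃ b : Chain M (n + 2), y - toReal z = bd M (n + 1) b) ∧ r = nrm y}.Nonempty := by
    refine ⟨nrm (toReal z), toReal z, ?_, ⟨0, by simp⟩, rfl⟩
    rw [← toReal_bd, hz.1]
    simp [toReal]
  refine lt_of_lt_of_le hc (le_csInf hne ?_)
  rintro r ⟨y, -, ⟨b₁, hb₁⟩, rfl⟩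
  exact hle y b₁ hb₁

end Pool.Agent.Helper43.CX
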