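import Pool.Agent.Helper43.CX.Final
import Pool.Agent.Helper66.AF.Main

/-!
CX (MP_f22a19_gt): the final statement with self-contained definitions, deduced from the output of the
modules. (Template of the results file: the definitions are to be copied there.)
-/

set_option autoImplicit false

namespace Pool.Agent.Helper43.CX.Template

/-- singular `k`-simplices of a space -/
abbrev Simplex (X : Type*) [TopologicalSpace X] (k : ℕ) : Type _ := C(stdSimplex ℝ (Fin (k + 1)), X)

/-- singular `k`-chains with coefficients in the ring `R` -/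
abbrev Chain (R : Type*) [CommRing R] (X : Type*) [TopologicalSpace X] (k : ℕ) : Type _ := Simplex X k →₀ R

/-- the face of the standard simplex opposite to the vertex `i` -/
noncomputable def face (k : ℕ) (i : Fin (k + 2)) : C(stdSimplex ℝ (Fin (k + 1)), stdSimplex ℝ (Fin (k + 2))) :=
  ⟨stdSimplex.map i.succAbove, stdSimplex.continuous_map _⟩

/-- the singular boundary: alternating sum of the faces -/
noncomputable def boundary (R : Type*) [CommRing R] (X : Type*) [TopologicalSpace X] (k : ℕ) :
    Chain R X (k + 1) →ₗ[R] Chain R X k :=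
  Finsupp.linearCombination R (fun σ : Simplex X (k + 1) =>
    ∑ i : Fin (k + 2), (-1 : R) ^ (i : ℕ) • (Finsupp.single (σ.comp (face k i)) (1 : R) : Chain R X k))

/-- the l1-norm of a real singular chain: sum of the absolute values of its coefficients -/
noncomputable def l1norm {X : Type*} [TopologicalSpace X] {k : ℕ} (c : Chain ℝ X k) : ℝ := ∑ σ ∈ c.support, |c σ|

/-- an integral chain regarded as a real chain -/
noncomputable def toReal {X : Type*} [TopologicalSpace X] {k : ℕ} (z : Chain ℤ X k) : Chain ℝ X k :=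
  z.mapRange (fun m : ℤ => (m : ℝ)) Int.cast_zero

/-- `z` is an integral singular cycle of degree `n + 1` and its class is a generator of the integral homology
group of degree `n + 1`, which is infinite cyclic: every integral cycle of this degree is homologous to `m • z`
for exactly one integer `m` -/
def IsFundamentalCycle {X : Type*} [TopologicalSpace X] {n : ℕ} (z : Chain ℤ X (n + 1)) : Prop :=
  boundary ℤ X n z = 0 ∧ ∀ w : Chain ℤ X (n + 1), boundary ℤ X n w = 0 →
    ∃! m : ℤ, ∃ b : Chain ℤ X (n + 2), w - m • z = boundary ℤ X (n + 1) b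

/-- the infimum of the l1-norms of the real singular cycles homologous to `z` -/
noncomputable def simplicialVolume {X : Type*} [TopologicalSpace X] {n : ℕ} (z : Chain ℤ X (n + 1)) : ℝ :=
  sInf {r : ℝ | ∃ y : Chain ℝ X (n + 1), boundary ℝ X n y = 0 ∧
    (∃ b : Chain ℝ X (n + 2), y - toReal z = boundary ℝ X (n + 1) b) ∧ r = l1norm y}

/-- `A` is an affine atlas: the domains of the charts cover `X` and each transition map is the restriction of an
affine automorphism of `R^n` -/
def IsAffineAtlas {X : Type*} [TopologicalSpace X] {n : ℕ} (A : Set (OpenPartialHomeomorph X (Fin n → ℝ))) : Prop :=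
  (∀ x : X, ∃ e ∈ A, x ∈ e.source) ∧
    ∀ e ∈ A, ∀ e' ∈ A, ∃ g : (Fin n → ℝ) ≃ᵃ[ℝ] (Fin n → ℝ), ∀ x ∈ e.source ∩ e'.source, e' x = g (e x)

/-- There is a closed affine 3-manifold `M` with positive simplicial volume. -/
def Statement : Prop :=
  ∃ (M : Type) (_ : TopologicalSpace M) (A : Set (OpenPartialHomeomorph M (Fin 3 → ℝ))),
    CompactSpace M ∧ ConnectedSpace M ∧ T2Space M ∧ SecondCountableTopology M ∧ IsAffineAtlas A ∧
    (∃ z : Chain ℤ M 3, IsFundamentalCycle z) ∧
    ∀ z : Chain ℤ M 3, IsFundamentalCycle z → 0 < simplicialVolume z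

open Pool.Agent.Helper66.AF

/-- the final statement from the output of the modules -/
theorem result_of {n : ℕ} (hn : Nonempty (Fin n)) (T : List (Tet (Fin n))) (p : Fin n → Fin n → E3)
    (h : IsAffineComplex T p) (z₀ : ChainC ℤ (geo T) 3) (h0 : bdC ℤ (geo T) 2 z₀ = 0)
    (hgen : ∀ w : ChainC ℤ (geo T) 3, bdC ℤ (geo T) 2 w = 0 →
      ∃ (m : ℤ) (b : ChainC ℤ (geo T) 4), w - m • z₀ = bdC ℤ (geo T) 3 b)
    (hfree : ∀ (m : ℤ) (b : ChainC ℤ (geo T) 4), m • z₀ = bdC ℤ (geo T) 3 b → m = 0)
    (c : ℝ) (hc : 0 < c) (hbound : ∀ b : Pool.SV.Chain (geo T) 4,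
      c ≤ Pool.SV.nrm (CX.toReal z₀ + Pool.SV.bd (geo T) 3 b)) : Statement := by
  obtain ⟨h1, h2, h3, h4, ch, -, -, h5, h6⟩ := closedAffine h
  have key := pos_of_bound (n := 2) z₀ h0
    (fun w hw => by
      obtain ⟨m, b, hb⟩ := hgen w hw
      exact ⟨m, b, by rw [← hb]; abel⟩)
    hfree c hc
    (fun y b hyb => by
      have : y = CX.toReal z₀ + Pool.SV.bd (geo T) 3 b := by rw [← hyb]; abel
      rw [this]
      exact hbound b)
  refine ⟨geo T, inferInstance, Set.range ch, h1, h4, h2, h3, ⟨?_, ?_⟩, ⟨z₀, key.1⟩, key.2⟩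
  · intro x
    obtain ⟨v, hv⟩ := h5 x
    exact ⟨ch v, ⟨v, rfl⟩, hv⟩
  · rintro e ⟨v, rfl⟩ e' ⟨w, rfl⟩
    exact h6 v w

end Pool.Agent.Helper43.CX.Template
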